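import Pool.Agent.Helper95.PM.Stmts
import Pool.Agent.Helper93.PW.PIE

set_option autoImplicit false

namespace Pool.Agent.Helper95.PW

open MeasureTheory Filter

/-! ### derivatives on space -/

theorem PIEM_pd_smooth {a : R3 → ℝ} (ha : ContDiff ℝ (⊤ : ℕ∞) a) (i : Fin 3) :
    ContDiff ℝ (⊤ : ℕ∞) (pd i a) := by
  unfold pd
  exact (ha.fderiv_right (m := (⊤ : ℕ∞)) (by simp)).clm_apply contDiff_const

theorem PIEM_pd_sub {a b : R3 → ℝ} (ha : ContDiff ℝ (⊤ : ℕ∞) a) (hb : ContDiff ℝ (⊤ : ℕ∞) b)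
    (i : Fin 3) : pd i (fun y => a y - b y) = fun y => pd i a y - pd i b y := by
  funext y
  unfold pd
  rw [fderiv_fun_sub (ha.differentiable (by simp) y) (hb.differentiable (by simp) y)]
  rfl

theorem PIEM_scale {g1 g2 : R3 → ℝ} {K r R : ℝ} (hK : 0 ≤ K) (hr : 0 < r) (hrR : r ≤ R)
    (h1 : Scale g1 K R) (h2 : Scale g2 K r) : Scale (fun y => g1 y - g2 y) (2 * K) r := by
  have e1 : ∀ i, pd i (fun y => g1 y - g2 y) = fun y => pd i g1 y - pd i g2 y :=
    fun i => PIEM_pd_sub h1.sm h2.sm i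
  have e2 : ∀ i j, pd i (pd j (fun y => g1 y - g2 y)) =
      fun y => pd i (pd j g1) y - pd i (pd j g2) y := fun i j => by
    rw [e1 j]
    exact PIEM_pd_sub (PIEM_pd_smooth h1.sm j) (PIEM_pd_smooth h2.sm j) i
  have e3 : ∀ i j l, pd i (pd j (pd l (fun y => g1 y - g2 y))) =
      fun y => pd i (pd j (pd l g1)) y - pd i (pd j (pd l g2)) y := fun i j l => by
    rw [e2 j l]
    exact PIEM_pd_sub (PIEM_pd_smooth (PIEM_pd_smooth h1.sm l) j)
      (PIEM_pd_smooth (PIEM_pd_smooth h2.sm l) j) i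
  have e4 : ∀ i j l m, pd i (pd j (pd l (pd m (fun y => g1 y - g2 y)))) =
      fun y => pd i (pd j (pd l (pd m g1))) y - pd i (pd j (pd l (pd m g2))) y :=
    fun i j l m => by
    rw [e3 j l m]
    exact PIEM_pd_sub (PIEM_pd_smooth (PIEM_pd_smooth (PIEM_pd_smooth h1.sm m) l) j)
      (PIEM_pd_smooth (PIEM_pd_smooth (PIEM_pd_smooth h2.sm m) l) j) i
  have tri : ∀ a b c d : ℝ, |a| ≤ c → |b| ≤ d → |a - b| ≤ c + d := fun a b c d ha hb => by
    rw [abs_le] at *
    constructor <;> linarith [ha.1, ha.2, hb.1, hb.2]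
  refine ⟨h1.sm.sub h2.sm, h1.cs.sub h2.cs, ?_, ?_, ?_, ?_⟩
  · intro i y
    rw [e1 i]
    have := tri _ _ _ _ (h1.d1 i y) (h2.d1 i y)
    show |pd i g1 y - pd i g2 y| ≤ 2 * K
    linarith
  · intro i j y
    rw [e2 i j]
    have := tri _ _ _ _ (h1.d2 i j y) (h2.d2 i j y)
    have hm : K / R ≤ K / r := div_le_div_of_nonneg_left hK hr hrR
    show |pd i (pd j g1) y - pd i (pd j g2) y| ≤ 2 * K / r
    have : 2 * K / r = K / r + K / r := by ring
    linarith
  · intro i j l y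
    rw [e3 i j l]
    have := tri _ _ _ _ (h1.d3 i j l y) (h2.d3 i j l y)
    have hm : K / R ^ 2 ≤ K / r ^ 2 :=
      div_le_div_of_nonneg_left hK (by positivity) (pow_le_pow_left₀ hr.le hrR 2)
    show |pd i (pd j (pd l g1)) y - pd i (pd j (pd l g2)) y| ≤ 2 * K / r ^ 2
    have : 2 * K / r ^ 2 = K / r ^ 2 + K / r ^ 2 := by ring
    linarith
  · intro i j l m y
    rw [e4 i j l m]
    have := tri _ _ _ _ (h1.d4 i j l m y) (h2.d4 i j l m y)
    have hm : K / R ^ 3 ≤ K / r ^ 3 :=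
      div_le_div_of_nonneg_left hK (by positivity) (pow_le_pow_left₀ hr.le hrR 3)
    show |pd i (pd j (pd l (pd m g1))) y - pd i (pd j (pd l (pd m g2))) y| ≤ 2 * K / r ^ 3
    have : 2 * K / r ^ 3 = K / r ^ 3 + K / r ^ 3 := by ring
    linarith

/-! ### the neighbourhood of the nuclei -/

theorem PIEM_dist_cont (a : R3) : Continuous (fun y : R3 => nr (y - a)) :=
  qle_nr_cont.comp (continuous_id.sub continuous_const)

theorem PIEM_Nb_closed {M : ℕ} (X : Fin M → R3) (R : ℝ) : IsClosed (Nb X R) := by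
  have e : Nb X R = ⋃ j, {y | nr (y - X j) ≤ R} := by
    ext y
    simp [Nb]
  rw [e]
  exact isClosed_iUnion_of_finite fun j => isClosed_le (PIEM_dist_cont (X j)) continuous_const

theorem PIEM_off {M : ℕ} {X : Fin M → R3} {R r : ℝ} {g1 g2 : R3 → ℝ} (hrR : r ≤ R)
    (h1 : ∀ y : R3, (∀ j, 2 * R < nr (y - X j)) → g1 y = 0)
    (h2 : ∀ y : R3, (∀ j, 2 * r < nr (y - X j)) → g2 y = 0) (y : R3)
    (hy : y ∉ Nb X (2 * R)) (i : Fin 3) : pd i (fun y => g1 y - g2 y) y = 0 := by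
  have hev : (fun y => g1 y - g2 y) =ᶠ[nhds y] fun _ => (0 : ℝ) := by
    have ho : (Nb X (2 * R))ᶜ ∈ nhds y := (PIEM_Nb_closed X (2 * R)).isOpen_compl.mem_nhds hy
    filter_upwards [ho] with z hz
    have hz' : ∀ j, 2 * R < nr (z - X j) := by
      intro j
      by_contra hc
      exact hz ⟨j, not_lt.1 hc⟩
    rw [h1 z hz', h2 z (fun j => lt_of_le_of_lt (by linarith) (hz' j)), sub_zero]
  unfold pd
  rw [hev.fderiv_eq]
  simp

theorem PIEM_ballc_nonneg (a : R3) (R : ℝ) (y : R3) : 0 ≤ ballc a R y := by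
  unfold ballc
  exact Set.indicator_nonneg (fun _ _ => zero_le_one) y

theorem PIEM_ballc_le (a : R3) (R : ℝ) (y : R3) : ballc a R y ≤ 1 := by
  unfold ballc
  exact Set.indicator_le_self' (fun _ _ => zero_le_one) y

theorem PIEM_ind_nonneg (S : Set R3) (y : R3) : 0 ≤ ind S y := by
  unfold ind
  exact Set.indicator_nonneg (fun _ _ => zero_le_one) y

theorem PIEM_ballc_meas (a : R3) (R : ℝ) : Measurable (ballc a R) := by
  unfold ballc
  exact measurable_const.indicator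
    (isClosed_le (PIEM_dist_cont a) continuous_const).measurableSet

theorem PIEM_ballc_int {n : ℕ} (a : R3) (R : ℝ) {v : Cf n → ℝ} (hv : ContDiff ℝ (⊤ : ℕ∞) v)
    (hc : HasCompactSupport v) :
    Integrable (fun x : Cf n => (∑ k, ballc a R (x k)) * v x ^ 2) := by
  have hm1 : MemLp v 2 := hv.continuous.memLp_of_hasCompactSupport hc
  refine Integrable.mono' (hm1.integrable_sq.const_mul (n : ℝ)) ?_ ?_
  · apply Measurable.aestronglyMeasurable
    apply Measurable.mul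
    · apply Finset.measurable_sum
      intro k _
      exact (PIEM_ballc_meas a R).comp (measurable_pi_apply k)
    · exact (hv.continuous.measurable).pow_const 2
  · refine Eventually.of_forall fun x => ?_
    have h0 : 0 ≤ ∑ k, ballc a R (x k) := Finset.sum_nonneg fun k _ => PIEM_ballc_nonneg _ _ _
    rw [Real.norm_of_nonneg (mul_nonneg h0 (sq_nonneg _))]
    apply mul_le_mul_of_nonneg_right _ (sq_nonneg _)
    calc ∑ k, ballc a R (x k) ≤ ∑ _k : Fin n, (1 : ℝ) :=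
          Finset.sum_le_sum fun k _ => PIEM_ballc_le _ _ _
      _ = n := by simp

theorem PIEM_one_ind {n M : ℕ} (X : Fin M → R3) (R : ℝ) (u : Wf n) (hu : Sm u) :
    one (ind (Nb X R)) u ≤ ∑ j, one (ballc (X j) R) u := by
  unfold one
  rw [Finset.sum_comm]
  apply Finset.sum_le_sum
  intro s _
  have hI : ∀ j : Fin M, Integrable (fun x : Cf n => (∑ k, ballc (X j) R (x k)) * u s x ^ 2) :=
    fun j => PIEM_ballc_int (X j) R (hu s).1 (hu s).2
  rw [← integral_finsetSum Finset.univ fun j _ => hI j]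
  apply integral_mono_of_nonneg
  · exact Eventually.of_forall fun x => mul_nonneg
      (Finset.sum_nonneg fun k _ => PIEM_ind_nonneg _ _) (sq_nonneg _)
  · exact integrable_finsetSum _ fun j _ => hI j
  · refine Eventually.of_forall fun x => ?_
    show (∑ k, ind (Nb X R) (x k)) * u s x ^ 2 ≤ ∑ j, (∑ k, ballc (X j) R (x k)) * u s x ^ 2
    rw [← Finset.sum_mul]
    apply mul_le_mul_of_nonneg_right _ (sq_nonneg _)
    rw [Finset.sum_comm]
    apply Finset.sum_le_sum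
    intro k _
    by_cases h : x k ∈ Nb X R
    · obtain ⟨j, hj⟩ := id h
      have e1 : ind (Nb X R) (x k) = 1 := by
        unfold ind
        rw [Set.indicator_of_mem h]
      have e2 : ballc (X j) R (x k) = 1 := by
        unfold ballc
        rw [Set.indicator_of_mem (show x k ∈ {y | nr (y - X j) ≤ R} from hj)]
      rw [e1, ← e2]
      exact Finset.single_le_sum (f := fun j => ballc (X j) R (x k))
        (fun j _ => PIEM_ballc_nonneg _ _ _) (Finset.mem_univ j)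
    · have e1 : ind (Nb X R) (x k) = 0 := by
        unfold ind
        rw [Set.indicator_of_notMem h]
      rw [e1]
      exact Finset.sum_nonneg fun j _ => PIEM_ballc_nonneg _ _ _

/-! ### the form is at most one -/

theorem PIEM_pot_meas {n M : ℕ} (X : Fin M → R3) (Z : Fin M → ℝ) :
    Measurable (fun x : Cf n => ∑ k, pot X Z (x k)) := by
  apply Finset.measurable_sum
  intro k _
  unfold pot
  apply Finset.measurable_sum
  intro j _
  exact measurable_const.div ((PIEM_dist_cont (X j)).measurable.comp (measurable_pi_apply k))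

theorem PIEM_memLp (h8 : ST_INTM) {n M : ℕ} (X : Fin M → R3) (Z : Fin M → ℝ) (E : ℝ)
    {v : Cf n → ℝ} (hv : ContDiff ℝ (⊤ : ℕ∞) v) (hc : HasCompactSupport v) :
    MemLp (fun x => hmM X Z v x - E * v x) 2 := by
  obtain ⟨_, _, i3, i4⟩ := h8 n M X Z v v hv hc hv hc
  have m1 : MemLp v 2 := hv.continuous.memLp_of_hasCompactSupport hc
  have m2 : MemLp (fun x => ∑ k, ∑ i, dv k i (dv k i v) x) 2 :=
    (qle_S hv hc).1.memLp_of_hasCompactSupport (qle_S hv hc).2
  have m3 : MemLp (fun x : Cf n => (∑ k, pot X Z (x k)) * v x) 2 :=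
    (memLp_two_iff_integrable_sq (f := fun x : Cf n => (∑ k, pot X Z (x k)) * v x)
      ((PIEM_pot_meas X Z).mul hv.continuous.measurable).aestronglyMeasurable).2 i3
  have m4 : MemLp (fun x : Cf n => rep x * v x) 2 :=
    (memLp_two_iff_integrable_sq (f := fun x : Cf n => rep x * v x)
      ((qle_rep_meas n).mul hv.continuous.measurable).aestronglyMeasurable).2 i4
  have h := ((m2.neg).add (m4.sub m3)).sub (m1.const_mul E)
  refine h.ae_eq (Eventually.of_forall fun x => ?_)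
  simp only [Pi.add_apply, Pi.sub_apply, Pi.neg_apply, hmM]
  ring

theorem PIEM_main (h7 : ST_QHM) (h8 : ST_INTM) {n M : ℕ} (X : Fin M → R3) (Z : Fin M → ℝ)
    (E : ℝ) (u : Wf n) (hu : Sm u) (hs : sq u ≤ 2) (hE : E ≤ 0)
    (hr : resM X Z E u ≤ 1 / 2) : QM X Z u ≤ 1 := by
  have hq := h7 n M X Z u u hu hu
  rw [hq.2, hq.1]
  have hf : ∀ s, MemLp (fun x => hmM X Z (u s) x - E * u s x) 2 :=
    fun s => PIEM_memLp h8 X Z E (hu s).1 (hu s).2
  have hm1 : ∀ s, MemLp (u s) 2 := fun s => (hu s).1.continuous.memLp_of_hasCompactSupport (hu s).2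
  have hterm : ∀ s, ∫ x, u s x * hmM X Z (u s) x ≤
      E * (∫ x, u s x ^ 2) + ((1 / 4) * (∫ x, u s x ^ 2) +
        ∫ x, (hmM X Z (u s) x - E * u s x) ^ 2) := by
    intro s
    have i1 : Integrable (fun x => u s x ^ 2) := (hm1 s).integrable_sq
    have i2 : Integrable (fun x => (hmM X Z (u s) x - E * u s x) ^ 2) := (hf s).integrable_sq
    have i3 : Integrable (fun x => u s x * (hmM X Z (u s) x - E * u s x)) := by
      have := (hf s).integrable_mul (hm1 s)
      refine this.congr (Eventually.of_forall fun x => ?_)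
      simp only [Pi.mul_apply]
      ring
    have e1 : ∫ x, u s x * hmM X Z (u s) x =
        E * (∫ x, u s x ^ 2) + ∫ x, u s x * (hmM X Z (u s) x - E * u s x) := by
      rw [← integral_const_mul, ← integral_add (i1.const_mul E) i3]
      apply integral_congr_ae
      refine Eventually.of_forall fun x => ?_
      show u s x * hmM X Z (u s) x = E * u s x ^ 2 + u s x * (hmM X Z (u s) x - E * u s x)
      ring
    have e2 : ∫ x, u s x * (hmM X Z (u s) x - E * u s x) ≤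
        (1 / 4) * (∫ x, u s x ^ 2) + ∫ x, (hmM X Z (u s) x - E * u s x) ^ 2 := by
      rw [← integral_const_mul, ← integral_add (i1.const_mul _) i2]
      apply integral_mono i3 ((i1.const_mul _).add i2)
      intro x
      show u s x * (hmM X Z (u s) x - E * u s x) ≤
        1 / 4 * u s x ^ 2 + (hmM X Z (u s) x - E * u s x) ^ 2
      nlinarith [sq_nonneg (u s x / 2 - (hmM X Z (u s) x - E * u s x))]
    rw [e1]
    linarith
  have hsum : ∑ s, ∫ x, u s x * hmM X Z (u s) x ≤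
      E * sq u + ((1 / 4) * sq u + resM X Z E u) := by
    calc ∑ s, ∫ x, u s x * hmM X Z (u s) x ≤ ∑ s, (E * (∫ x, u s x ^ 2) +
        ((1 / 4) * (∫ x, u s x ^ 2) + ∫ x, (hmM X Z (u s) x - E * u s x) ^ 2)) :=
          Finset.sum_le_sum fun s _ => hterm s
      _ = _ := by
          unfold resM sq
          rw [Finset.sum_add_distrib, Finset.sum_add_distrib, Finset.mul_sum, Finset.mul_sum]
  have hs0 : 0 ≤ sq u := pie_sq_nonneg u
  have h1 : E * sq u ≤ 0 := mul_nonpos_of_nonpos_of_nonneg hE hs0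
  linarith

/-! ### counting -/

theorem PIEM_count {n M : ℕ} {CN CT D R ν Y : ℝ} (X : Fin M → R3) (hCN : 0 < CN) (hCT : 0 < CT)
    (hD : D = CN * (1 + (4 * CT) ^ (3 / 5 : ℝ))) (hR : 0 < R) (hY : 0 < Y)
    (hν : ν = 1 + (Y * R ^ 2) ^ (3 / 5 : ℝ))
    (u : Wf n) (hu : Sm u) (hk : kin u ≤ CT * Y)
    (hN : ∀ j, one (ballc (X j) (2 * R)) u ≤
      CN * (1 + (kin u * (2 * R) ^ 2) ^ (3 / 5 : ℝ))) :
    one (ind (Nb X (2 * R))) u ≤ M * D * ν := by
  have hy : (0 : ℝ) ≤ (Y * R ^ 2) ^ (3 / 5 : ℝ) := Real.rpow_nonneg (by positivity) _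
  have hp : (0 : ℝ) < (4 * CT) ^ (3 / 5 : ℝ) := Real.rpow_pos_of_pos (by positivity) _
  have h2 : (kin u * (2 * R) ^ 2) ^ (3 / 5 : ℝ) ≤
      (4 * CT) ^ (3 / 5 : ℝ) * (Y * R ^ 2) ^ (3 / 5 : ℝ) := by
    rw [← Real.mul_rpow (by positivity) (by positivity)]
    apply Real.rpow_le_rpow (mul_nonneg (pie_kin_nonneg u) (by positivity)) _ (by norm_num)
    have : kin u * (2 * R) ^ 2 ≤ CT * Y * (2 * R) ^ 2 :=
      mul_le_mul_of_nonneg_right hk (by positivity)
    calc kin u * (2 * R) ^ 2 ≤ CT * Y * (2 * R) ^ 2 := this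
      _ = 4 * CT * (Y * R ^ 2) := by ring
  have h3 : ∀ j, one (ballc (X j) (2 * R)) u ≤ D * ν := by
    intro j
    rw [hν, hD]
    set p := (4 * CT) ^ (3 / 5 : ℝ) with hpdef
    set y := (Y * R ^ 2) ^ (3 / 5 : ℝ) with hydef
    calc one (ballc (X j) (2 * R)) u ≤ CN * (1 + (kin u * (2 * R) ^ 2) ^ (3 / 5 : ℝ)) := hN j
      _ ≤ CN * (1 + p * y) := by
          apply mul_le_mul_of_nonneg_left _ hCN.le
          linarith
      _ ≤ CN * ((1 + p) * (1 + y)) := by
          apply mul_le_mul_of_nonneg_left _ hCN.le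
          nlinarith
      _ = (CN * (1 + p)) * (1 + y) := by ring
  calc one (ind (Nb X (2 * R))) u ≤ ∑ j, one (ballc (X j) (2 * R)) u := PIEM_one_ind X _ u hu
    _ ≤ ∑ _j : Fin M, D * ν := Finset.sum_le_sum fun j _ => h3 j
    _ = M * D * ν := by
        rw [Finset.sum_const, Finset.card_univ, Fintype.card_fin, nsmul_eq_mul]
        ring

theorem PIEM_alg {CS K D CT ν X r N Y m : ℝ} (hCS : 0 < CS) (hCT : 0 < CT) (hD : 0 < D)
    (hν : 0 ≤ ν) (hX : 0 < X) (hr : 0 < r) (hm : 1 ≤ m) (hN0 : 0 ≤ N) (hN : N ≤ m * D * ν)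
    (hY : Y ≤ 3 * CT * X) :
    CS * (2 * K) ^ 4 * (N * (Y / r ^ 2 + N / r ^ 4)) ≤
      16 * CS * D * (3 * CT + D) * K ^ 4 * m ^ 2 * (ν * (X / r ^ 2 + ν / r ^ 4)) := by
  have hm0 : 0 < m := lt_of_lt_of_le one_pos hm
  have hDν : 0 ≤ m * D * ν := by positivity
  have e1 : Y / r ^ 2 + N / r ^ 4 ≤ (3 * CT * X) / r ^ 2 + (m * D * ν) / r ^ 4 :=
    add_le_add (div_le_div_of_nonneg_right hY (by positivity))
      (div_le_div_of_nonneg_right hN (by positivity))
  have e2 : N * (Y / r ^ 2 + N / r ^ 4) ≤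
      (m * D * ν) * ((3 * CT * X) / r ^ 2 + (m * D * ν) / r ^ 4) :=
    calc N * (Y / r ^ 2 + N / r ^ 4) ≤ N * ((3 * CT * X) / r ^ 2 + (m * D * ν) / r ^ 4) :=
          mul_le_mul_of_nonneg_left e1 hN0
      _ ≤ _ := mul_le_mul_of_nonneg_right hN (by positivity)
  have e0 : (3 * CT * X) / r ^ 2 ≤ m * ((3 * CT * X) / r ^ 2) := by
    have : 0 ≤ (3 * CT * X) / r ^ 2 := by positivity
    nlinarith
  have e2' : (m * D * ν) * ((3 * CT * X) / r ^ 2 + (m * D * ν) / r ^ 4) ≤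
      m ^ 2 * ((D * ν) * ((3 * CT * X) / r ^ 2 + (D * ν) / r ^ 4)) := by
    have : (m * D * ν) * ((3 * CT * X) / r ^ 2 + (m * D * ν) / r ^ 4) ≤
        (m * D * ν) * (m * ((3 * CT * X) / r ^ 2) + (m * D * ν) / r ^ 4) :=
      mul_le_mul_of_nonneg_left (by linarith) hDν
    refine this.trans (le_of_eq ?_)
    ring
  have e3 : (D * ν) * ((3 * CT * X) / r ^ 2 + (D * ν) / r ^ 4) ≤
      D * (3 * CT + D) * (ν * (X / r ^ 2 + ν / r ^ 4)) := by
    have a1 : 0 ≤ D * ν * (D * (X / r ^ 2)) := by positivity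
    have a2 : 0 ≤ D * ν * (3 * CT * (ν / r ^ 4)) := by positivity
    have a3 : D * (3 * CT + D) * (ν * (X / r ^ 2 + ν / r ^ 4)) =
        (D * ν) * ((3 * CT * X) / r ^ 2 + (D * ν) / r ^ 4) +
        (D * ν * (D * (X / r ^ 2)) + D * ν * (3 * CT * (ν / r ^ 4))) := by ring
    rw [a3]
    linarith
  have e4 : 0 ≤ CS * (2 * K) ^ 4 := by positivity
  calc CS * (2 * K) ^ 4 * (N * (Y / r ^ 2 + N / r ^ 4)) ≤
      CS * (2 * K) ^ 4 * (m ^ 2 * (D * (3 * CT + D) * (ν * (X / r ^ 2 + ν / r ^ 4)))) :=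
        mul_le_mul_of_nonneg_left ((e2.trans e2').trans
          (mul_le_mul_of_nonneg_left e3 (by positivity))) e4
    _ = _ := by ring

theorem st_PIEM (h1 : ST_SHLM) (h2 : ST_NRM) (h3 : ST_TUPM) (h4 : ST_APXM) (h5 : ST_LMTM)
    (h6 : ST_QHM) (h7 : ST_INTM) : ST_PIEM := by
  obtain ⟨CS, hCS, H1⟩ := h1
  obtain ⟨CN, hCN, H2⟩ := h2
  obtain ⟨CT, hCT, H3⟩ := h3
  have hp : (0 : ℝ) < (4 * CT) ^ (3 / 5 : ℝ) := Real.rpow_pos_of_pos (by positivity) _
  set D : ℝ := CN * (1 + (4 * CT) ^ (3 / 5 : ℝ)) with hD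
  have hD0 : 0 < D := by positivity
  refine ⟨16 * CS * D * (3 * CT + D), by positivity, ?_⟩
  intro n M X Z E φ G m K r R ν g1 g2 hn hZ hK hG hE hr hrR c1 c2 hν
  have hK0 : 0 < K := lt_of_lt_of_le one_pos hK
  have hR : 0 < R := lt_of_lt_of_le hr hrR
  have hn1 : (1 : ℝ) ≤ n := by exact_mod_cast hn
  have hn0 : (0 : ℝ) < n := lt_of_lt_of_le one_pos hn1
  have hM : 1 ≤ M := by
    rcases Nat.eq_zero_or_pos M with h | h
    · subst h
      have := hZ.2
      simp at this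
      linarith
    · exact h
  have hM1 : (1 : ℝ) ≤ M := by exact_mod_cast hM
  obtain ⟨u, happ⟩ := h4 n M X Z E φ G hG
  obtain ⟨hu, _, _, ⟨M0, hM0⟩, hres⟩ := id happ
  obtain ⟨l1, _, l3⟩ := h5 n M X Z E φ G u hG happ
  set g : R3 → ℝ := fun y => g1 y - g2 y with hg
  have hsc : Scale g (2 * K) r := PIEM_scale hK0.le hr hrR c1.sc c2.sc
  have hoff : ∀ y, y ∉ Nb X (2 * R) → ∀ i, pd i g y = 0 := fun y hy i =>
    PIEM_off hrR c1.far c2.far y hy i
  have hnear : ∀ (j : Fin M) (y : R3), nr (y - X j) < r → ∀ i, pd i g y = 0 := by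
    intro j y hy i
    have e := congrFun (PIEM_pd_sub c1.sc.sm c2.sc.sm i) y
    rw [hg, e]
    show pd i g1 y - pd i g2 y = 0
    rw [c1.near j y (hy.le.trans hrR) i, c2.near j y hy.le i, sub_self]
  set Y : ℝ := (n : ℝ) ^ (7 / 3 : ℝ) with hYdef
  have hY : 0 < Y := Real.rpow_pos_of_pos hn0 _
  have hν0 : 0 ≤ ν := by
    rw [hν]
    have : (0 : ℝ) ≤ (Y * R ^ 2) ^ (3 / 5 : ℝ) := Real.rpow_nonneg (by positivity) _
    linarith
  obtain ⟨C', hC', HS⟩ := H1 n M X Z E g (2 * K) r (max M0 (CT * Y)) (Nb X (2 * R)) hG.low hZ.1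
    hsc hr (PIEM_Nb_closed X (2 * R)) hoff hnear
  have t1 : Tendsto (fun j => sq (fun s => Pg g (u j s)) ^ 2) atTop
      (nhds (sq (PG g φ G) ^ 2)) := (l3 g hsc.sm hsc.cs).pow 2
  have t2 : Tendsto (fun j => 16 * CS * D * (3 * CT + D) * K ^ 4 * (M : ℝ) ^ 2 *
      (ν * (Y / r ^ 2 + ν / r ^ 4)) + C' * Real.sqrt (resM X Z E (u j))) atTop
      (nhds (16 * CS * D * (3 * CT + D) * K ^ 4 * (M : ℝ) ^ 2 *
      (ν * (Y / r ^ 2 + ν / r ^ 4)) + C' * Real.sqrt 0)) :=
    tendsto_const_nhds.add (tendsto_const_nhds.mul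
      ((Real.continuous_sqrt.tendsto 0).comp hres))
  rw [Real.sqrt_zero, mul_zero, add_zero] at t2
  apply le_of_tendsto_of_tendsto t1 t2
  have v1 : ∀ᶠ j in atTop, sq (u j) < 2 := l1.eventually (gt_mem_nhds (by norm_num))
  have v2 : ∀ᶠ j in atTop, resM X Z E (u j) < 1 / 2 :=
    hres.eventually (gt_mem_nhds (by norm_num))
  filter_upwards [v1, v2] with j w1 w2
  have hsm := (hu j).1
  have hQ : QM X Z (u j) ≤ 1 := PIEM_main h6 h7 X Z E (u j) hsm w1.le hE w2.le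
  obtain ⟨b1, b2, b3⟩ := H3 n M X Z (u j) hn hZ hsm (hu j).2 w1.le hQ
  have hcount : one (ind (Nb X (2 * R))) (u j) ≤ M * D * ν :=
    PIEM_count X hCN hCT hD hR hY hν (u j) hsm b1 (fun i => H2 n (u j) (X i) hsm (hu j).2 w1.le
      (2 * R) (by positivity))
  have hb0 : 0 ≤ one (ind (Nb X (2 * R))) (u j) := qle_one_nonneg _ (PIEM_ind_nonneg _) _
  have key := HS (u j) hsm (hu j).2 w1.le (b1.trans (le_max_right _ _))
    (b2.trans (le_max_right _ _)) (b3.trans (le_max_right _ _)) ((hM0 j).trans (le_max_left _ _))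
    (by linarith)
  have key2 := PIEM_alg (K := K) (r := r) (N := one (ind (Nb X (2 * R))) (u j))
    (Y := kin (u j) + pair (u j) + one (pot X Z) (u j)) hCS hCT hD0 hν0 hY hr hM1 hb0
    hcount (by linarith)
  linarith

end Pool.Agent.Helper95.PW
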